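import Mathlib

/-! Definitions for the search problem with geometric detection probability. -/

namespace Pool.Agent.Lib.MP_61cfb3_pr

open Set
open scoped ENNReal NNReal

/-- The visits of the path `S : [0,∞) → ℝ` to the point `H`: the connected components of
`S ⁻¹ (H)` (maximal closed time intervals, possibly single points). -/
def visits (S : ℝ≥0 → ℝ) (H : ℝ) : Set (Set ℝ≥0) :=
  {C | ∃ t ∈ S ⁻¹' {H}, C = connectedComponentIn (S ⁻¹' {H}) t}

/-- The left endpoints of the visits of `S` to `H`. -/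
def visitStarts (S : ℝ≥0 → ℝ) (H : ℝ) : Set ℝ≥0 :=
  {t | ∃ C ∈ visits S H, IsLeast C t}

/-- `S : [0,∞) → ℝ` is an admitted trajectory of the searcher: it starts at `0`, has speed at
most `1`, and for every possible position `H ≠ 0` of the hider each bounded time interval
meets only finitely many visits of `S` to `H`. -/
structure IsTrajectory (S : ℝ≥0 → ℝ) : Prop where
  start : S 0 = 0
  speed : ∀ t t' : ℝ≥0, |S t - S t'| ≤ |(t : ℝ) - (t' : ℝ)|
  locallyFinite : ∀ H : ℝ, H ≠ 0 → ∀ T : ℝ≥0,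
    {C | C ∈ visits S H ∧ (C ∩ Set.Iic T).Nonempty}.Finite

/-- `visitTime S H i` is the time of the `(i+1)`-st visit of `S` to `H` (the visits are
numbered `0, 1, 2, …` here), that is, the least time `t` such that at least `i + 1` visits have
begun by time `t`; it is `∞` if there are fewer than `i + 1` visits. -/
noncomputable def visitTime (S : ℝ≥0 → ℝ) (H : ℝ) (i : ℕ) : ℝ≥0∞ :=
  ⨅ (t : ℝ≥0) (_ : ((i + 1 : ℕ) : ℕ∞) ≤ (visitStarts S H ∩ Set.Iic t).encard), (t : ℝ≥0∞)

/-- Expected capture time: capture occurs at the `(i+1)`-st visit with probability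
`p (1 - p) ^ i`. It is `∞` if `H` is visited only finitely often (for `0 < p < 1`). -/
noncomputable def expectedCaptureTime (p : ℝ) (S : ℝ≥0 → ℝ) (H : ℝ) : ℝ≥0∞ :=
  ∑' i : ℕ, ENNReal.ofReal (p * (1 - p) ^ i) * visitTime S H i

/-- The guaranteed cost `v(S) = sup_{H ≠ 0} E[T(S,H)] / |H|`. -/
noncomputable def guaranteedCost (p : ℝ) (S : ℝ≥0 → ℝ) : ℝ≥0∞ :=
  ⨆ (H : ℝ) (_ : H ≠ 0), expectedCaptureTime p S H / ENNReal.ofReal |H|

end Pool.Agent.Lib.MP_61cfb3_pr
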