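import Mathlib
import Pool.Agent.Lib.MP_61cfb3_pr.Defs

/-!
# Minimax search on the line with geometric detection probability: proofs

For every detection probability `p ∈ (0,1)` we construct a searcher trajectory `S` whose
guaranteed cost is smaller than `p / (2 - p) + 8 / p` by at least `p (1 - p) (2 - p) / 2`.
-/

namespace Pool.Agent.Lib.MP_61cfb3_pr

open Set Filter Topology
open scoped ENNReal NNReal

/-! ## Sanity checks on the definitions -/

/-- If the left endpoints of the visits are enumerated increasingly by `u`, then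
`visitTime S H i = u i`. -/
theorem visitTime_eq_of_enumeration (S : ℝ≥0 → ℝ) (H : ℝ) (u : ℕ → ℝ≥0) (hu : StrictMono u)
    (hr : Set.range u = visitStarts S H) (i : ℕ) : visitTime S H i = (u i : ℝ≥0∞) := by
  classical
  unfold visitTime
  apply le_antisymm
  · refine iInf₂_le (u i) ?_
    rw [← hr]
    have h1 : u '' (Set.Iic i) ⊆ Set.range u ∩ Set.Iic (u i) := by
      rintro _ ⟨j, hj, rfl⟩
      exact ⟨⟨j, rfl⟩, hu.monotone hj⟩
    refine le_trans ?_ (Set.encard_le_encard h1)
    rw [hu.injective.encard_image]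
    have : (Set.Iic i : Set ℕ) = ((Finset.Iic i : Finset ℕ) : Set ℕ) := by simp
    rw [this, Set.encard_coe_eq_coe_finsetCard]
    simp
  · refine le_iInf₂ ?_
    intro t ht
    rw [← hr] at ht
    by_contra hlt
    push Not at hlt
    have hlt' : t < u i := by exact_mod_cast hlt
    have h1 : Set.range u ∩ Set.Iic t ⊆ u '' (Set.Iio i) := by
      rintro _ ⟨⟨j, rfl⟩, hj⟩
      refine ⟨j, ?_, rfl⟩
      by_contra hji
      simp only [Set.mem_Iio, not_lt] at hji
      exact absurd (lt_of_le_of_lt hj hlt') (not_lt.mpr (hu.monotone hji))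
    have h2 := le_trans ht (Set.encard_le_encard h1)
    rw [hu.injective.encard_image] at h2
    have : (Set.Iio i : Set ℕ) = ((Finset.Iio i : Finset ℕ) : Set ℕ) := by simp
    rw [this, Set.encard_coe_eq_coe_finsetCard] at h2
    simp only [Nat.card_Iio] at h2
    have h3 : i + 1 ≤ i := by exact_mod_cast h2
    omega

/-- If `H` is visited only finitely often, the expected capture time is infinite. -/
theorem expectedCaptureTime_eq_top_of_finite {p : ℝ} (hp0 : 0 < p) (hp1 : p < 1) (S : ℝ≥0 → ℝ)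
    (H : ℝ) (hfin : (visitStarts S H).Finite) : expectedCaptureTime p S H = ⊤ := by
  have h1 : visitTime S H (visitStarts S H).ncard = ⊤ := by
    unfold visitTime
    rw [iInf₂_eq_top]
    intro t ht
    exfalso
    have h2 := le_trans ht (Set.encard_le_encard (Set.inter_subset_left))
    rw [← hfin.cast_ncard_eq] at h2
    have h3 : (visitStarts S H).ncard + 1 ≤ (visitStarts S H).ncard := by exact_mod_cast h2
    omega
  unfold expectedCaptureTime
  refine ENNReal.tsum_eq_top_of_eq_top ⟨(visitStarts S H).ncard, ?_⟩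
  rw [h1]
  refine ENNReal.mul_top ?_
  simp only [ne_eq, ENNReal.ofReal_eq_zero, not_le]
  have : 0 < 1 - p := by linarith
  positivity

/-- Why the finiteness condition is imposed only for `H ≠ 0`: if `S` starts at `0`, has speed at
most `1` and finite guaranteed cost, then every interval `[0,T]`, `T > 0`, meets infinitely many
components of `S ⁻¹ (0)`. So a finiteness condition at `H = 0` would exclude every trajectory
of finite cost (the geometric one as well). -/
theorem infinite_visits_zero {p : ℝ} (hp0 : 0 < p) (S : ℝ≥0 → ℝ)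
    (hspeed : ∀ t t' : ℝ≥0, |S t - S t'| ≤ |(t : ℝ) - (t' : ℝ)|)
    (hcost : guaranteedCost p S ≠ ⊤) {T : ℝ≥0} (hT : 0 < T) :
    {C | C ∈ visits S 0 ∧ (C ∩ Set.Iic T).Nonempty}.Infinite := by
  intro hfin
  have hcont : Continuous S := by
    have : LipschitzWith 1 S := LipschitzWith.of_dist_le_mul (by
      intro x y
      rw [Real.dist_eq, NNReal.dist_eq]
      simpa using hspeed x y)
    exact this.continuous
  have hclosedF : IsClosed (S ⁻¹' {0}) := isClosed_singleton.preimage hcont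
  have hclosed : ∀ C ∈ visits S 0, IsClosed C := by
    rintro C ⟨t, ht, rfl⟩
    apply isClosed_of_closure_subset
    apply IsPreconnected.subset_connectedComponentIn
    · exact isPreconnected_connectedComponentIn.closure
    · exact subset_closure (mem_connectedComponentIn ht)
    · exact closure_minimal (connectedComponentIn_subset _ _) hclosedF
  -- the union of the components not containing `0`
  set 𝒞 : Set (Set ℝ≥0) := {C | C ∈ visits S 0 ∧ (C ∩ Set.Iic T).Nonempty} with h𝒞
  set U : Set ℝ≥0 := ⋃ C ∈ {C ∈ 𝒞 | (0 : ℝ≥0) ∉ C}, C with hU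
  have hUclosed : IsClosed U :=
    Set.Finite.isClosed_biUnion (hfin.subset (Set.sep_subset _ _)) (fun C hC => hclosed C hC.1.1)
  have h0U : (0 : ℝ≥0) ∉ U := by
    rw [hU]
    simp only [Set.mem_iUnion, not_exists]
    intro C hC h0
    exact hC.2 h0
  obtain ⟨ε, hε, hball⟩ := Metric.isOpen_iff.mp hUclosed.isOpen_compl 0 h0U
  -- every `H ≠ 0` is visited before time `K |H|`
  obtain ⟨c, hc⟩ : ∃ c : ℝ≥0, (c : ℝ≥0∞) = guaranteedCost p S :=
    ⟨(guaranteedCost p S).toNNReal, ENNReal.coe_toNNReal hcost⟩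
  have hvisit : ∀ H : ℝ, H ≠ 0 → ∃ t : ℝ≥0, S t = H ∧ (t : ℝ) ≤ (c + 1) / p * |H| := by
    intro H hH
    have hHpos : 0 < |H| := abs_pos.mpr hH
    by_contra hno
    push Not at hno
    have h1 : expectedCaptureTime p S H / ENNReal.ofReal |H| ≤ guaranteedCost p S :=
      le_iSup₂ (f := fun (H : ℝ) (_ : H ≠ 0) => expectedCaptureTime p S H / ENNReal.ofReal |H|) H hH
    have h2 : ENNReal.ofReal ((c + 1) / p * |H|) ≤ visitTime S H 0 := by
      unfold visitTime
      refine le_iInf₂ fun t ht => ?_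
      have h3 : (visitStarts S H ∩ Set.Iic t).Nonempty := by
        rw [← Set.one_le_encard_iff_nonempty]
        simpa using ht
      obtain ⟨s, ⟨C, ⟨r, hr, rfl⟩, hs⟩, hst⟩ := h3
      have h4 : s ∈ S ⁻¹' {H} := connectedComponentIn_subset _ _ hs.1
      have h5 := hno s h4
      have h6 : (s : ℝ) ≤ t := by exact_mod_cast hst
      rw [ENNReal.ofReal_le_iff_le_toReal (by simp)]
      simp only [ENNReal.coe_toReal]
      linarith
    have h3 : ENNReal.ofReal (((c : ℝ) + 1) * |H|) ≤ expectedCaptureTime p S H := by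
      calc ENNReal.ofReal (((c : ℝ) + 1) * |H|)
          = ENNReal.ofReal (p * (1 - p) ^ 0) * ENNReal.ofReal ((c + 1) / p * |H|) := by
            rw [← ENNReal.ofReal_mul (by simpa using hp0.le)]
            congr 1
            field_simp
        _ ≤ ENNReal.ofReal (p * (1 - p) ^ 0) * visitTime S H 0 := mul_le_mul_right h2 _
        _ ≤ expectedCaptureTime p S H := ENNReal.le_tsum (f := fun i : ℕ =>
            ENNReal.ofReal (p * (1 - p) ^ i) * visitTime S H i) 0
    have h4 : ENNReal.ofReal (((c : ℝ) + 1)) ≤ (c : ℝ≥0∞) := by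
      rw [hc]
      refine le_trans ?_ h1
      rw [ENNReal.le_div_iff_mul_le (Or.inl (by simpa using hH)) (Or.inl (by simp)), ← ENNReal.ofReal_mul' hHpos.le]
      exact h3
    rw [ENNReal.ofReal_le_iff_le_toReal (by simp)] at h4
    simp only [ENNReal.coe_toReal] at h4
    linarith
  -- find a positive and a negative value early
  set K : ℝ := (c + 1) / p with hK
  have hKpos : 0 < K := by positivity
  set η : ℝ := min ε T / (2 * K) with hη
  have hTpos : (0 : ℝ) < T := by exact_mod_cast hT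
  have hmin : 0 < min ε (T : ℝ) := lt_min hε hTpos
  have hηpos : 0 < η := by positivity
  have hKη : K * η = min ε T / 2 := by rw [hη]; field_simp
  obtain ⟨s, hs1, hs2⟩ := hvisit η hηpos.ne'
  obtain ⟨t, ht1, ht2⟩ := hvisit (-η) (by linarith)
  rw [abs_neg] at ht2
  rw [abs_of_pos hηpos] at hs2 ht2
  have hzero : ∃ z : ℝ≥0, min s t ≤ z ∧ z ≤ max s t ∧ S z = 0 := by
    have h1 : (0 : ℝ) ∈ Set.uIcc (S s) (S t) := by
      rw [hs1, ht1, Set.mem_uIcc]; right; constructor <;> linarith
    obtain ⟨z, hz1, hz2⟩ := intermediate_value_uIcc (hcont.continuousOn (s := Set.uIcc s t)) h1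
    exact ⟨z, hz1.1, hz1.2, hz2⟩
  obtain ⟨z, hz1, hz2, hz0⟩ := hzero
  have hz3 : (z : ℝ) ≤ min ε T / 2 := by
    have h1 : (z : ℝ) ≤ max (s : ℝ) t := by exact_mod_cast hz2
    refine h1.trans (max_le ?_ ?_) <;> linarith
  have hzT : z ≤ T := by
    have h1 : (z : ℝ) ≤ T := by linarith [min_le_right ε (T : ℝ)]
    exact_mod_cast h1
  have hzε : (z : ℝ) < ε := by linarith [min_le_left ε (T : ℝ)]
  have hmem : connectedComponentIn (S ⁻¹' {0}) z ∈ 𝒞 :=
    ⟨⟨z, hz0, rfl⟩, ⟨z, mem_connectedComponentIn hz0, hzT⟩⟩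
  by_cases h0 : (0 : ℝ≥0) ∈ connectedComponentIn (S ⁻¹' {0}) z
  · have hord : (connectedComponentIn (S ⁻¹' {0}) z).OrdConnected :=
      isPreconnected_connectedComponentIn.ordConnected
    have h1 : min s t ∈ connectedComponentIn (S ⁻¹' {0}) z :=
      hord.out h0 (mem_connectedComponentIn hz0) ⟨zero_le, hz1⟩
    have h2' : min s t ∈ S ⁻¹' {0} := connectedComponentIn_subset _ _ h1
    have h2 : S (min s t) = 0 := h2'
    rcases min_choice s t with h3 | h3
    · rw [h3, hs1] at h2; linarith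
    · rw [h3, ht1] at h2; linarith
  · have h1 : z ∈ U := by
      rw [hU]
      exact Set.mem_biUnion (x := connectedComponentIn (S ⁻¹' {0}) z) ⟨hmem, h0⟩
        (mem_connectedComponentIn hz0)
    have h2 : z ∈ Metric.ball (0 : ℝ≥0) ε := by
      rw [Metric.mem_ball, NNReal.dist_eq]
      simpa using hzε
    exact hball h2 h1

/-! ## General facts about visits -/

/-- If the path is at `H` only finitely often in bounded time, every visit is a single point. -/
theorem component_singleton (S : ℝ≥0 → ℝ) (H : ℝ)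
    (hfin : ∀ T : ℝ≥0, (S ⁻¹' {H} ∩ Set.Iic T).Finite) (t : ℝ≥0) (ht : t ∈ S ⁻¹' {H}) :
    connectedComponentIn (S ⁻¹' {H}) t = {t} := by
  apply Set.eq_singleton_iff_unique_mem.mpr
  refine ⟨mem_connectedComponentIn ht, ?_⟩
  intro x hx
  by_contra hne
  have hpre : IsPreconnected (connectedComponentIn (S ⁻¹' {H}) t) :=
    isPreconnected_connectedComponentIn
  have hord : (connectedComponentIn (S ⁻¹' {H}) t).OrdConnected := hpre.ordConnected
  have htm : t ∈ connectedComponentIn (S ⁻¹' {H}) t := mem_connectedComponentIn ht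
  have hsub : connectedComponentIn (S ⁻¹' {H}) t ⊆ S ⁻¹' {H} := connectedComponentIn_subset _ _
  rcases lt_or_gt_of_ne hne with h | h
  · have hI : Set.Icc x t ⊆ S ⁻¹' {H} ∩ Set.Iic t := fun y hy =>
      ⟨hsub (hord.out hx htm hy), hy.2⟩
    exact (Set.Icc_infinite h) ((hfin t).subset hI)
  · have hI : Set.Icc t x ⊆ S ⁻¹' {H} ∩ Set.Iic x := fun y hy =>
      ⟨hsub (hord.out htm hx hy), hy.2⟩
    exact (Set.Icc_infinite h) ((hfin x).subset hI)

theorem visitStarts_eq (S : ℝ≥0 → ℝ) (H : ℝ)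
    (hfin : ∀ T : ℝ≥0, (S ⁻¹' {H} ∩ Set.Iic T).Finite) :
    visitStarts S H = S ⁻¹' {H} := by
  ext t
  constructor
  · rintro ⟨C, ⟨s, hs, rfl⟩, hC⟩
    exact connectedComponentIn_subset _ _ hC.1
  · intro ht
    refine ⟨_, ⟨t, ht, rfl⟩, ?_⟩
    rw [component_singleton S H hfin t ht]
    exact isLeast_singleton

theorem locallyFinite_of_finite (S : ℝ≥0 → ℝ) (H : ℝ)
    (hfin : ∀ T : ℝ≥0, (S ⁻¹' {H} ∩ Set.Iic T).Finite) (T : ℝ≥0) :
    {C | C ∈ visits S H ∧ (C ∩ Set.Iic T).Nonempty}.Finite := by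
  refine ((hfin T).image (fun t => ({t} : Set ℝ≥0))).subset ?_
  rintro C ⟨⟨s, hs, rfl⟩, hne⟩
  rw [component_singleton S H hfin s hs] at hne ⊢
  obtain ⟨y, hy1, hy2⟩ := hne
  rw [Set.mem_singleton_iff] at hy1
  subst hy1
  exact ⟨y, ⟨hs, hy2⟩, rfl⟩

/-- Upper bound of the visit times by any strictly increasing sequence of visits. -/
theorem visitTime_le (S : ℝ≥0 → ℝ) (H : ℝ)
    (hfin : ∀ T : ℝ≥0, (S ⁻¹' {H} ∩ Set.Iic T).Finite) (u : ℕ → ℝ≥0) (hu : StrictMono u)
    (hS : ∀ i, S (u i) = H) (i : ℕ) : visitTime S H i ≤ (u i : ℝ≥0∞) := by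
  unfold visitTime
  refine iInf₂_le (u i) ?_
  rw [visitStarts_eq S H hfin]
  have h1 : u '' (Set.Iic i) ⊆ S ⁻¹' {H} ∩ Set.Iic (u i) := by
    rintro _ ⟨j, hj, rfl⟩
    exact ⟨hS j, hu.monotone hj⟩
  refine le_trans ?_ (Set.encard_le_encard h1)
  rw [hu.injective.encard_image]
  have : (Set.Iic i : Set ℕ) = ((Finset.Iic i : Finset ℕ) : Set ℕ) := by simp
  rw [this, Set.encard_coe_eq_coe_finsetCard]
  simp

/-! ## The trajectory -/

/-- Profile of one (normalised) excursion with a retrace, started at time `0`: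
`0 → 1 + δ → 1 → A → 0` at unit speed. Its total duration is `2 A + 2 δ`. -/
noncomputable def prof (A δ u : ℝ) : ℝ :=
  min (max (min u (2 * (1 + δ) - u)) (u - 2 * δ)) (2 * A + 2 * δ - u)

theorem prof_lip (A δ u v : ℝ) : |prof A δ u - prof A δ v| ≤ |u - v| := by
  unfold prof
  have h1 : |min u (2 * (1 + δ) - u) - min v (2 * (1 + δ) - v)| ≤ |u - v| := by
    refine (abs_min_sub_min_le_max _ _ _ _).trans (max_le le_rfl ?_)
    rw [show 2 * (1 + δ) - u - (2 * (1 + δ) - v) = -(u - v) by ring, abs_neg]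
  have h2 : |max (min u (2 * (1 + δ) - u)) (u - 2 * δ)
      - max (min v (2 * (1 + δ) - v)) (v - 2 * δ)| ≤ |u - v| := by
    refine (abs_max_sub_max_le_max _ _ _ _).trans (max_le h1 ?_)
    rw [show u - 2 * δ - (v - 2 * δ) = u - v by ring]
  refine (abs_min_sub_min_le_max _ _ _ _).trans (max_le h2 ?_)
  rw [show 2 * A + 2 * δ - u - (2 * A + 2 * δ - v) = -(u - v) by ring, abs_neg]

theorem prof_le_left {A δ u : ℝ} (hδ : 0 ≤ δ) : prof A δ u ≤ u := by
  unfold prof
  refine (min_le_left _ _).trans (max_le (min_le_left _ _) (by linarith))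

theorem prof_le_right {A δ u : ℝ} : prof A δ u ≤ 2 * A + 2 * δ - u := by
  unfold prof
  exact min_le_right _ _

theorem prof_nonneg {A δ u : ℝ} (hu : 0 ≤ u) (hu' : u ≤ 2 * A + 2 * δ) :
    0 ≤ prof A δ u := by
  unfold prof
  refine le_min ?_ (by linarith)
  by_cases h : 2 * δ ≤ u
  · exact le_max_of_le_right (by linarith)
  · push Not at h
    exact le_max_of_le_left (le_min hu (by linarith))

theorem prof_zero {A δ : ℝ} (hδ : 0 ≤ δ) (hA : 0 ≤ A) : prof A δ 0 = 0 :=
  le_antisymm (prof_le_left hδ) (prof_nonneg le_rfl (by linarith))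

theorem prof_end {A δ : ℝ} (hδ : 0 ≤ δ) (hA : 0 ≤ A) : prof A δ (2 * A + 2 * δ) = 0 :=
  le_antisymm (by simpa using prof_le_right (A := A) (δ := δ) (u := 2 * A + 2 * δ))
    (prof_nonneg (by linarith) le_rfl)

/-- first leg -/
theorem prof_leg1 {A δ h : ℝ} (hδ : 0 ≤ δ) (h1 : h ≤ 1 + δ) (hA : h ≤ A) : prof A δ h = h := by
  unfold prof
  rw [min_eq_left (a := h) (by linarith), max_eq_left (by linarith), min_eq_left (by linarith)]

/-- third leg -/
theorem prof_leg3 {A δ h : ℝ} (h1 : 1 ≤ h) (hA : h ≤ A) :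
    prof A δ (h + 2 * δ) = h := by
  unfold prof
  rw [max_eq_right, min_eq_left]
  · ring
  · linarith
  · refine (min_le_right _ _).trans (by linarith)

/-- last leg -/
theorem prof_leg4 {A δ h : ℝ} (hA : h ≤ A) :
    prof A δ (2 * A + 2 * δ - h) = h := by
  unfold prof
  rw [min_eq_right]
  · ring
  · refine le_max_of_le_right (by linarith)

theorem prof_cases {A δ u c : ℝ} (h : prof A δ u = c) :
    u = c ∨ u = 2 * (1 + δ) - c ∨ u = c + 2 * δ ∨ u = 2 * A + 2 * δ - c := by
  unfold prof at h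
  rcases min_choice (max (min u (2 * (1 + δ) - u)) (u - 2 * δ)) (2 * A + 2 * δ - u) with h1 | h1
  · rw [h1] at h
    rcases max_choice (min u (2 * (1 + δ) - u)) (u - 2 * δ) with h2 | h2
    · rw [h2] at h
      rcases min_choice u (2 * (1 + δ) - u) with h3 | h3
      · rw [h3] at h; left; linarith
      · rw [h3] at h; right; left; linarith
    · rw [h2] at h; right; right; left; linarith
  · rw [h1] at h; right; right; right; linarith

/-- The starting time of excursion number `0`. -/
noncomputable def startTime (a δ : ℝ) : ℝ := (2 * a ^ 2 + 2 * δ) / (a - 1)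

/-- The self-similar trajectory: during the time interval `[a^n T₀, a^(n+1) T₀]` it makes the
excursion `0 → (1+δ) a^n → a^n → a^(n+2) → 0` in the direction `(-1)^n`. -/
noncomputable def path (a δ : ℝ) (t : ℝ≥0) : ℝ :=
  if 0 < t then
    (-a) ^ ⌊Real.logb a (t / startTime a δ)⌋ *
      prof (a ^ 2) δ (t / a ^ ⌊Real.logb a (t / startTime a δ)⌋ - startTime a δ)
  else 0

section path

variable {a δ : ℝ} (ha : 1 < a) (hδ : 0 < δ) (had : 1 + δ ≤ a ^ 2)

include ha hδ in
theorem startTime_pos : 0 < startTime a δ := by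
  unfold startTime
  have : 0 < a - 1 := by linarith
  positivity

include ha in
theorem mul_startTime : a * startTime a δ = startTime a δ + (2 * a ^ 2 + 2 * δ) := by
  unfold startTime
  have : a - 1 ≠ 0 := by linarith
  field_simp
  ring

include ha hδ in
theorem floor_spec {t : ℝ} (ht : 0 < t) :
    a ^ ⌊Real.logb a (t / startTime a δ)⌋ * startTime a δ ≤ t ∧
      t < a ^ (⌊Real.logb a (t / startTime a δ)⌋ + 1) * startTime a δ := by
  have hT := startTime_pos ha hδ
  have hx : 0 < t / startTime a δ := div_pos ht hT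
  set n := ⌊Real.logb a (t / startTime a δ)⌋ with hn
  have h1 : (n : ℝ) ≤ Real.logb a (t / startTime a δ) := Int.floor_le _
  have h2 : Real.logb a (t / startTime a δ) < (n : ℝ) + 1 := Int.lt_floor_add_one _
  rw [Real.le_logb_iff_rpow_le ha hx, Real.rpow_intCast] at h1
  rw [Real.logb_lt_iff_lt_rpow ha hx] at h2
  constructor
  · rwa [le_div_iff₀ hT] at h1
  · rw [div_lt_iff₀ hT] at h2
    have : a ^ ((n : ℝ) + 1) = a ^ (n + 1) := by
      rw [← Real.rpow_intCast]; push_cast; rfl
    rwa [this] at h2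

include ha hδ in
theorem floor_unique {t : ℝ} {i : ℤ} (h1 : a ^ i * startTime a δ ≤ t)
    (h2 : t < a ^ (i + 1) * startTime a δ) :
    ⌊Real.logb a (t / startTime a δ)⌋ = i := by
  have hT := startTime_pos ha hδ
  have hapos : 0 < a := by linarith
  have ht : 0 < t := lt_of_lt_of_le (by positivity) h1
  obtain ⟨h3, h4⟩ := floor_spec ha hδ ht
  set n := ⌊Real.logb a (t / startTime a δ)⌋
  have h5 : a ^ i < a ^ (n + 1) := by
    have := lt_of_le_of_lt h1 h4
    exact lt_of_mul_lt_mul_right this hT.le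
  have h6 : a ^ n < a ^ (i + 1) := by
    have := lt_of_le_of_lt h3 h2
    exact lt_of_mul_lt_mul_right this hT.le
  have h7 := (zpow_lt_zpow_iff_right₀ ha).mp h5
  have h8 := (zpow_lt_zpow_iff_right₀ ha).mp h6
  omega

include ha hδ in
theorem path_eq (i : ℤ) (t : ℝ≥0) (h1 : a ^ i * startTime a δ ≤ t)
    (h2 : (t : ℝ) ≤ a ^ (i + 1) * startTime a δ) :
    path a δ t = (-a) ^ i * prof (a ^ 2) δ (t / a ^ i - startTime a δ) := by
  have hT := startTime_pos ha hδ
  have hapos : 0 < a := by linarith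
  have ht : (0 : ℝ) < t := lt_of_lt_of_le (by positivity) h1
  have ht' : 0 < t := by exact_mod_cast ht
  unfold path
  rw [if_pos ht']
  rcases lt_or_eq_of_le h2 with h3 | h3
  · rw [floor_unique ha hδ h1 h3]
  · have h4 : ⌊Real.logb a (t / startTime a δ)⌋ = i + 1 := by
      apply floor_unique ha hδ h3.ge
      rw [h3]
      apply mul_lt_mul_of_pos_right _ hT
      exact zpow_lt_zpow_right₀ ha (by omega)
    rw [h4, h3]
    have e1 : a ^ (i + 1) * startTime a δ / a ^ (i + 1) - startTime a δ = 0 := by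
      have : a ^ (i + 1) ≠ 0 := by positivity
      field_simp
      ring
    have e2 : a ^ (i + 1) * startTime a δ / a ^ i - startTime a δ = 2 * a ^ 2 + 2 * δ := by
      have : a ^ (i + 1) = a ^ i * a := zpow_add_one₀ (by positivity) i
      rw [this]
      have h5 : a ^ i ≠ 0 := by positivity
      have h6 := mul_startTime (δ := δ) ha
      rw [mul_assoc, mul_div_cancel_left₀ _ h5]
      linarith
    rw [e1, e2, prof_zero hδ.le (by positivity), prof_end hδ.le (by positivity)]
    ring

theorem path_zero : path a δ 0 = 0 := by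
  unfold path
  simp

include ha in
theorem abs_neg_zpow (i : ℤ) : |(-a) ^ i| = a ^ i := by
  rw [abs_zpow, abs_neg, abs_of_pos (by linarith)]

include ha hδ in
theorem path_abs_le (i : ℤ) (t : ℝ≥0) (h1 : a ^ i * startTime a δ ≤ t)
    (h2 : (t : ℝ) ≤ a ^ (i + 1) * startTime a δ) :
    |path a δ t| ≤ t - a ^ i * startTime a δ ∧ |path a δ t| ≤ a ^ (i + 1) * startTime a δ - t := by
  have hT := startTime_pos ha hδ
  have hapos : 0 < a := by linarith
  have hai : 0 < a ^ i := by positivity
  have e0 : a ^ (i + 1) = a ^ i * a := zpow_add_one₀ (by positivity) i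
  have e1 := mul_startTime (δ := δ) ha
  set u := t / a ^ i - startTime a δ with hu
  have hut : (t : ℝ) = a ^ i * (u + startTime a δ) := by
    rw [hu]; field_simp; ring
  have hu0 : 0 ≤ u := by
    rw [hu, sub_nonneg, le_div_iff₀ hai]; linarith
  have huL : u ≤ 2 * a ^ 2 + 2 * δ := by
    rw [hu, sub_le_iff_le_add, div_le_iff₀ hai]
    rw [e0] at h2
    nlinarith
  have hp0 := prof_nonneg hu0 huL
  have hp1 : prof (a ^ 2) δ u ≤ u := prof_le_left hδ.le
  have hp2 : prof (a ^ 2) δ u ≤ 2 * a ^ 2 + 2 * δ - u := prof_le_right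
  rw [path_eq ha hδ i t h1 h2, ← hu, abs_mul, abs_neg_zpow ha, abs_of_nonneg hp0, hut, e0]
  constructor
  · nlinarith
  · have : a ^ i * a * startTime a δ = a ^ i * (startTime a δ + (2 * a ^ 2 + 2 * δ)) := by
      rw [mul_assoc, e1]
    rw [this]
    nlinarith

include ha hδ in
theorem path_lip_aux (s t : ℝ≥0) (hst : s ≤ t) :
    |path a δ s - path a δ t| ≤ (t : ℝ) - s := by
  have hT := startTime_pos ha hδ
  have hapos : 0 < a := by linarith
  have hst' : (s : ℝ) ≤ t := by exact_mod_cast hst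
  rcases eq_or_lt_of_le (zero_le : 0 ≤ t) with ht0 | ht0
  · have hs0 : s = 0 := le_antisymm (by rw [ht0]; exact hst) (zero_le : 0 ≤ s)
    rw [← ht0, hs0]; simp
  have ht0' : (0 : ℝ) < t := by exact_mod_cast ht0
  obtain ⟨j1, j2⟩ := floor_spec ha hδ ht0'
  set j := ⌊Real.logb a (t / startTime a δ)⌋
  obtain ⟨ta, tb⟩ := path_abs_le ha hδ j t j1 j2.le
  rcases eq_or_lt_of_le (zero_le : 0 ≤ s) with hs0 | hs0
  · rw [← hs0, path_zero, zero_sub, abs_neg]
    have : 0 < a ^ j * startTime a δ := by positivity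
    simp only [NNReal.coe_zero, sub_zero]
    linarith
  have hs0' : (0 : ℝ) < s := by exact_mod_cast hs0
  obtain ⟨i1, i2⟩ := floor_spec ha hδ hs0'
  set i := ⌊Real.logb a (s / startTime a δ)⌋
  obtain ⟨sa, sb⟩ := path_abs_le ha hδ i s i1 i2.le
  rcases lt_trichotomy i j with hij | hij | hij
  · have h1 : a ^ (i + 1) ≤ a ^ j := zpow_le_zpow_right₀ ha.le (by omega)
    have h2 : a ^ (i + 1) * startTime a δ ≤ a ^ j * startTime a δ :=
      mul_le_mul_of_nonneg_right h1 hT.le
    have h3 := abs_sub (path a δ s) (path a δ t)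
    linarith
  · have hai : 0 < a ^ i := by positivity
    rw [← hij] at j1 j2
    rw [path_eq ha hδ i s i1 i2.le, path_eq ha hδ i t j1 j2.le, ← mul_sub, abs_mul,
      abs_neg_zpow ha]
    have h3 := prof_lip (a ^ 2) δ (s / a ^ i - startTime a δ) (t / a ^ i - startTime a δ)
    have h4 : s / a ^ i - startTime a δ - (t / a ^ i - startTime a δ) = ((s : ℝ) - t) / a ^ i := by
      ring
    rw [h4, abs_div, abs_of_pos hai, abs_of_nonpos (by linarith : (s : ℝ) - t ≤ 0)] at h3
    calc a ^ i * |prof (a ^ 2) δ (s / a ^ i - startTime a δ)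
          - prof (a ^ 2) δ (t / a ^ i - startTime a δ)|
        ≤ a ^ i * (-((s : ℝ) - t) / a ^ i) := mul_le_mul_of_nonneg_left h3 hai.le
      _ = t - s := by field_simp; ring
  · exfalso
    have h1 : a ^ (j + 1) ≤ a ^ i := zpow_le_zpow_right₀ ha.le (by omega)
    have h2 : a ^ (j + 1) * startTime a δ ≤ a ^ i * startTime a δ :=
      mul_le_mul_of_nonneg_right h1 hT.le
    linarith

include ha hδ in
theorem path_lip (s t : ℝ≥0) : |path a δ s - path a δ t| ≤ |(s : ℝ) - t| := by
  rcases le_total s t with h | h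
  · have h' : (s : ℝ) ≤ t := by exact_mod_cast h
    rw [abs_of_nonpos (by linarith : (s : ℝ) - t ≤ 0)]
    linarith [path_lip_aux ha hδ s t h]
  · have h' : (t : ℝ) ≤ s := by exact_mod_cast h
    rw [abs_of_nonneg (by linarith : 0 ≤ (s : ℝ) - t), abs_sub_comm]
    exact path_lip_aux ha hδ t s h

include ha hδ in
theorem path_finite {H : ℝ} (hH : H ≠ 0) (T : ℝ≥0) :
    (path a δ ⁻¹' {H} ∩ Set.Iic T).Finite := by
  have hT := startTime_pos ha hδ
  have hapos : 0 < a := by linarith
  have hHpos : 0 < |H| := abs_pos.mpr hH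
  obtain ⟨m1, m2⟩ := floor_spec (a := a) (δ := δ) ha hδ hHpos
  set m := ⌊Real.logb a (|H| / startTime a δ)⌋
  have hT1 : (0 : ℝ) < (T : ℝ) + 1 := by positivity
  obtain ⟨M1, M2⟩ := floor_spec (a := a) (δ := δ) ha hδ hT1
  set M := ⌊Real.logb a (((T : ℝ) + 1) / startTime a δ)⌋
  set F : Set ℝ := ⋃ n ∈ Set.Icc m M,
    {a ^ n * (H / (-a) ^ n + startTime a δ), a ^ n * (2 * (1 + δ) - H / (-a) ^ n + startTime a δ),
      a ^ n * (H / (-a) ^ n + 2 * δ + startTime a δ),
      a ^ n * (2 * a ^ 2 + 2 * δ - H / (-a) ^ n + startTime a δ)} with hF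
  have hFfin : F.Finite := by
    rw [hF]
    exact Set.Finite.biUnion (Set.finite_Icc m M) (fun n _ => Set.toFinite _)
  refine (hFfin.preimage (f := ((↑) : ℝ≥0 → ℝ)) NNReal.coe_injective.injOn).subset ?_
  rintro t ⟨htH, htT⟩
  rw [Set.mem_preimage, Set.mem_singleton_iff] at htH
  rw [Set.mem_Iic] at htT
  have htT' : (t : ℝ) ≤ T := by exact_mod_cast htT
  have htpos : 0 < t := by
    rcases eq_or_lt_of_le (zero_le : 0 ≤ t) with h | h
    · exfalso; rw [← h, path_zero] at htH; exact hH htH.symm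
    · exact h
  have htpos' : (0 : ℝ) < t := by exact_mod_cast htpos
  have hHt : |H| ≤ t := by
    have := path_lip_aux (a := a) (δ := δ) ha hδ 0 t (zero_le : 0 ≤ t)
    rw [path_zero, zero_sub, abs_neg, htH] at this
    simpa using this
  obtain ⟨n1, n2⟩ := floor_spec (a := a) (δ := δ) ha hδ htpos'
  set n := ⌊Real.logb a (t / startTime a δ)⌋
  have hmn : m ≤ n := by
    have h1 : a ^ m * startTime a δ < a ^ (n + 1) * startTime a δ := by linarith
    have h2 := lt_of_mul_lt_mul_right h1 hT.le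
    have h3 := (zpow_lt_zpow_iff_right₀ ha).mp h2
    omega
  have hnM : n ≤ M := by
    have h1 : a ^ n * startTime a δ < a ^ (M + 1) * startTime a δ := by linarith
    have h2 := lt_of_mul_lt_mul_right h1 hT.le
    have h3 := (zpow_lt_zpow_iff_right₀ ha).mp h2
    omega
  have h5 := path_eq ha hδ n t n1 n2.le
  have han : (-a) ^ n ≠ 0 := zpow_ne_zero _ (by linarith)
  have han' : a ^ n ≠ 0 := by positivity
  rw [htH] at h5
  have h6 : prof (a ^ 2) δ (t / a ^ n - startTime a δ) = H / (-a) ^ n := by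
    rw [h5]; field_simp
  have h7 : (t : ℝ) = a ^ n * ((t / a ^ n - startTime a δ) + startTime a δ) := by
    field_simp; ring
  rw [Set.mem_preimage, hF, Set.mem_iUnion₂]
  refine ⟨n, ⟨hmn, hnM⟩, ?_⟩
  simp only [Set.mem_insert_iff, Set.mem_singleton_iff]
  rcases prof_cases h6 with h | h | h | h
  · left; rw [h7, h]
  · right; left; rw [h7, h]
  · right; right; left; rw [h7, h]
  · right; right; right; rw [h7, h]

include ha hδ in
theorem path_isTrajectory : IsTrajectory (path a δ) where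
  start := path_zero
  speed := path_lip ha hδ
  locallyFinite := fun H hH T => locallyFinite_of_finite _ H (fun T => path_finite ha hδ hH T) T

end path

/-! ## The cost of the trajectory -/

theorem expected_le {p : ℝ} (hp0 : 0 < p) (hp1 : p < 1) (S : ℝ≥0 → ℝ) (H : ℝ)
    (hfin : ∀ T : ℝ≥0, (S ⁻¹' {H} ∩ Set.Iic T).Finite) (u : ℕ → ℝ) (hu : StrictMono u)
    (hu0 : ∀ j, 0 ≤ u j) (hS : ∀ j, S (u j).toNNReal = H) (E : ℝ)
    (hE : HasSum (fun j : ℕ => p * (1 - p) ^ j * u j) E) :
    expectedCaptureTime p S H ≤ ENNReal.ofReal E := by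
  have hq : 0 < 1 - p := by linarith
  have hmono : StrictMono (fun j => (u j).toNNReal) := by
    intro j k hjk
    have h1 := hu hjk
    exact (Real.toNNReal_lt_toNNReal_iff (lt_of_le_of_lt (hu0 j) h1)).mpr h1
  have h2 : ∀ j, visitTime S H j ≤ ENNReal.ofReal (u j) := fun j =>
    visitTime_le S H hfin _ hmono hS j
  unfold expectedCaptureTime
  calc ∑' i : ℕ, ENNReal.ofReal (p * (1 - p) ^ i) * visitTime S H i
      ≤ ∑' i : ℕ, ENNReal.ofReal (p * (1 - p) ^ i * u i) := by
        refine ENNReal.tsum_le_tsum fun i => ?_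
        rw [ENNReal.ofReal_mul (p := p * (1 - p) ^ i) (by positivity)]
        exact mul_le_mul_right (h2 i) _
    _ = ENNReal.ofReal (∑' i : ℕ, p * (1 - p) ^ i * u i) := by
        rw [ENNReal.ofReal_tsum_of_nonneg (fun i => mul_nonneg (by positivity) (hu0 i)) hE.summable]
    _ = ENNReal.ofReal E := by rw [hE.tsum_eq]

/-- The visits used for a hider at `(-a)^i h`, in units of `a^i`, when the first leg is
ignored. -/
noncomputable def bSeq (a δ h : ℝ) (j : ℕ) : ℝ :=
  a ^ j * startTime a δ + (-1) ^ j * h + (if j = 0 then 2 * δ else 0)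

/-- The visits used for a hider at `(-a)^i h`, in units of `a^i`, if `h ≤ 1 + δ`. -/
noncomputable def aSeq (a δ h : ℝ) : ℕ → ℝ
  | 0 => startTime a δ + h
  | (j + 1) => bSeq a δ h j

section cost

variable {a δ : ℝ} (ha : 1 < a) (hδ : 0 < δ) (had : 1 + δ ≤ a ^ 2)

include ha in
theorem exists_decomp {H : ℝ} (hH : H ≠ 0) :
    ∃ (i : ℤ) (h : ℝ), 1 ≤ h ∧ h < a ^ 2 ∧ H = (-a) ^ i * h := by
  have hapos : 0 < a := by linarith
  have ha2 : 1 < a ^ 2 := by nlinarith
  rcases lt_or_gt_of_ne hH with h | h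
  · obtain ⟨n, hn1, hn2⟩ := exists_mem_Ico_zpow (x := -H / a) (y := a ^ 2)
      (div_pos (by linarith) hapos) ha2
    have e0 : (a ^ 2) ^ (n + 1) = (a ^ 2) ^ n * a ^ 2 := zpow_add_one₀ (by positivity) n
    have hpos : 0 < (a ^ 2) ^ n := by positivity
    rw [e0] at hn2
    refine ⟨2 * n + 1, -H / a / (a ^ 2) ^ n, ?_, ?_, ?_⟩
    · rw [le_div_iff₀ hpos]; linarith
    · rw [div_lt_iff₀ hpos]; linarith
    · have h1 : (-a) ^ (2 * n + 1) = (a ^ 2) ^ n * (-a) := by
        rw [zpow_add_one₀ (by linarith), zpow_mul]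
        norm_num
      rw [h1]
      field_simp
  · obtain ⟨n, hn1, hn2⟩ := exists_mem_Ico_zpow (x := H) (y := a ^ 2) h ha2
    have e0 : (a ^ 2) ^ (n + 1) = (a ^ 2) ^ n * a ^ 2 := zpow_add_one₀ (by positivity) n
    have hpos : 0 < (a ^ 2) ^ n := by positivity
    rw [e0] at hn2
    refine ⟨2 * n, H / (a ^ 2) ^ n, ?_, ?_, ?_⟩
    · rw [le_div_iff₀ hpos]; linarith
    · rw [div_lt_iff₀ hpos]; linarith
    · have h1 : (-a) ^ (2 * n) = (a ^ 2) ^ n := by
        rw [zpow_mul]
        norm_num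
      rw [h1]
      field_simp

include ha hδ in
theorem path_at (i : ℤ) {v : ℝ} (hv0 : 0 ≤ v) (hvL : v ≤ 2 * a ^ 2 + 2 * δ) :
    path a δ (a ^ i * (startTime a δ + v)).toNNReal = (-a) ^ i * prof (a ^ 2) δ v := by
  have hT := startTime_pos ha hδ
  have hapos : 0 < a := by linarith
  have hai : 0 < a ^ i := by positivity
  have e0 : a ^ (i + 1) = a ^ i * a := zpow_add_one₀ (by positivity) i
  have e1 := mul_startTime (δ := δ) ha
  have hnn : 0 ≤ a ^ i * (startTime a δ + v) := by positivity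
  have hc : (((a ^ i * (startTime a δ + v)).toNNReal : ℝ≥0) : ℝ) = a ^ i * (startTime a δ + v) :=
    Real.coe_toNNReal _ hnn
  rw [path_eq ha hδ i]
  · rw [hc]
    congr 2
    field_simp
    ring
  · rw [hc]
    nlinarith
  · rw [hc, e0, mul_assoc, e1]
    apply mul_le_mul_of_nonneg_left _ hai.le
    linarith

include ha hδ in
theorem bSeq_lower {h : ℝ} (h1 : 1 ≤ h) (h2 : h < a ^ 2) (j : ℕ) : 0 < bSeq a δ h j := by
  have hT := startTime_pos ha hδ
  have e1 := mul_startTime (δ := δ) ha
  unfold bSeq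
  rcases Nat.eq_zero_or_pos j with hj | hj
  · subst hj
    simp only [pow_zero, one_mul, if_true]
    linarith
  · rw [if_neg (by omega)]
    have h3 : a * startTime a δ ≤ a ^ j * startTime a δ := by
      apply mul_le_mul_of_nonneg_right _ hT.le
      calc a = a ^ 1 := (pow_one a).symm
        _ ≤ a ^ j := pow_le_pow_right₀ ha.le hj
    have h4 : -h ≤ (-1) ^ j * h := by
      rcases neg_one_pow_eq_or ℝ j with h5 | h5 <;> rw [h5] <;> linarith
    nlinarith

include ha hδ in
theorem bSeq_strictMono {h : ℝ} (h1 : 1 ≤ h) (h2 : h < a ^ 2) : StrictMono (bSeq a δ h) := by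
  have hT := startTime_pos ha hδ
  have e1 := mul_startTime (δ := δ) ha
  refine strictMono_nat_of_lt_succ fun j => ?_
  unfold bSeq
  rw [if_neg (Nat.succ_ne_zero j)]
  have e2 : a ^ (j + 1) * startTime a δ
      = a ^ j * startTime a δ + a ^ j * (2 * a ^ 2 + 2 * δ) := by
    rw [pow_succ, mul_assoc, e1]; ring
  have haj : 1 ≤ a ^ j := one_le_pow₀ ha.le
  have h3 : 2 * a ^ 2 + 2 * δ ≤ a ^ j * (2 * a ^ 2 + 2 * δ) :=
    le_mul_of_one_le_left (by positivity) haj
  rw [e2]
  rcases Nat.eq_zero_or_pos j with hj | hj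
  · subst hj
    norm_num
    linarith
  · rw [if_neg (by omega), pow_succ (-1 : ℝ) j]
    rcases neg_one_pow_eq_or ℝ j with h5 | h5 <;> rw [h5] <;> linarith

include ha hδ in
theorem aSeq_strictMono {h : ℝ} (h1 : 1 ≤ h) (h2 : h < a ^ 2) : StrictMono (aSeq a δ h) := by
  refine strictMono_nat_of_lt_succ fun j => ?_
  cases j with
  | zero =>
    simp only [aSeq, bSeq, pow_zero, one_mul, if_true]
    linarith
  | succ j => exact bSeq_strictMono ha hδ h1 h2 (Nat.lt_succ_self j)

include ha hδ in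
theorem path_bSeq (i : ℤ) {h : ℝ} (h1 : 1 ≤ h) (h2 : h < a ^ 2) (j : ℕ) :
    path a δ (a ^ i * bSeq a δ h j).toNNReal = (-a) ^ i * h := by
  have hapos : 0 < a := by linarith
  have e1 := mul_startTime (δ := δ) ha
  rcases Nat.eq_zero_or_pos j with hj | hj
  · subst hj
    have h3 : bSeq a δ h 0 = startTime a δ + (h + 2 * δ) := by
      unfold bSeq; simp; ring
    rw [h3, path_at ha hδ i (by linarith) (by linarith), prof_leg3 h1 h2.le]
  · rcases Nat.even_or_odd' j with ⟨k, hk | hk⟩
    · -- even, an outward leg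
      have h3 : a ^ i * bSeq a δ h j = a ^ (i + j) * (startTime a δ + h / a ^ j) := by
        unfold bSeq
        rw [if_neg (by omega), zpow_add₀ (by positivity), zpow_natCast]
        have : (-1 : ℝ) ^ j = 1 := by rw [hk, pow_mul]; norm_num
        rw [this]
        field_simp
        ring
      have h4 : a ^ 2 ≤ a ^ j := pow_le_pow_right₀ ha.le (by omega)
      have h5 : h / a ^ j ≤ 1 := by
        rw [div_le_one (by positivity)]; linarith
      have h6 : 0 ≤ h / a ^ j := by positivity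
      rw [h3, path_at ha hδ (i + j) h6 (by nlinarith),
        prof_leg1 hδ.le (by linarith) (by nlinarith), zpow_add₀ (by linarith), zpow_natCast]
      have h7 : (-a) ^ j = a ^ j := by
        rw [hk, pow_mul, pow_mul]; norm_num
      rw [h7]
      field_simp
    · -- odd, a return leg
      have h3 : a ^ i * bSeq a δ h j
          = a ^ (i + 2 * k) * (startTime a δ + (2 * a ^ 2 + 2 * δ - h / a ^ (2 * k))) := by
        unfold bSeq
        rw [if_neg (by omega), zpow_add₀ (by positivity)]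
        have e3 : (-1 : ℝ) ^ j = -1 := by rw [hk, pow_succ, pow_mul]; norm_num
        have e4 : a ^ (2 * (k : ℤ)) = a ^ (2 * k) := by
          rw [← zpow_natCast]; push_cast; rfl
        have e5 : a ^ j = a ^ (2 * k) * a := by rw [hk, pow_succ]
        rw [e3, e4, e5, mul_assoc (a ^ (2 * k)) a, e1]
        field_simp
        ring
      have h4 : 1 ≤ a ^ (2 * k) := one_le_pow₀ ha.le
      have h5 : h / a ^ (2 * k) ≤ h := div_le_self (by linarith) h4
      have h6 : 0 ≤ h / a ^ (2 * k) := by positivity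
      rw [h3, path_at ha hδ (i + 2 * k) (by linarith) (by linarith),
        prof_leg4 (by linarith), zpow_add₀ (by linarith)]
      have h7 : (-a) ^ (2 * (k : ℤ)) = a ^ (2 * k) := by
        rw [zpow_mul]
        have : (-a) ^ (2 : ℤ) = a ^ 2 := by norm_num
        rw [this, zpow_natCast, pow_mul]
      rw [h7]
      field_simp

include ha hδ in
theorem path_aSeq (i : ℤ) {h : ℝ} (h1 : 1 ≤ h) (h2 : h < a ^ 2) (h3 : h ≤ 1 + δ) (j : ℕ) :
    path a δ (a ^ i * aSeq a δ h j).toNNReal = (-a) ^ i * h := by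
  cases j with
  | zero =>
    simp only [aSeq]
    rw [path_at ha hδ i (by linarith) (by linarith), prof_leg1 hδ.le h3 h2.le]
  | succ j => exact path_bSeq ha hδ i h1 h2 j

theorem hasSum_bSeq {p q : ℝ} (hq0 : 0 ≤ q) (hq1 : q < 1) (ha0 : 0 ≤ a) (hqa : q * a < 1) (h : ℝ) :
    HasSum (fun j : ℕ => p * q ^ j * bSeq a δ h j)
      (p * startTime a δ / (1 - q * a) + p * h / (1 + q) + 2 * p * δ) := by
  have s1 : HasSum (fun j : ℕ => p * startTime a δ * (q * a) ^ j)
      (p * startTime a δ * (1 - q * a)⁻¹) :=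
    (hasSum_geometric_of_lt_one (by positivity) hqa).mul_left _
  have s2 : HasSum (fun j : ℕ => p * h * (-q) ^ j) (p * h * (1 - (-q))⁻¹) :=
    (hasSum_geometric_of_abs_lt_one (by rw [abs_neg, abs_of_nonneg hq0]; exact hq1)).mul_left _
  have s3 : HasSum (fun j : ℕ => if j = 0 then 2 * p * δ else 0) (2 * p * δ) :=
    hasSum_ite_eq 0 (2 * p * δ)
  have s4 := (s1.add s2).add s3
  convert s4 using 1
  · funext j
    unfold bSeq
    rcases Nat.eq_zero_or_pos j with hj | hj
    · subst hj; simp; ring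
    · rw [if_neg (by omega), if_neg (by omega), mul_pow, neg_pow]; ring
  · rw [sub_neg_eq_add, div_eq_mul_inv, div_eq_mul_inv]

theorem aSeq_succ (h : ℝ) (j : ℕ) : aSeq a δ h (j + 1) = bSeq a δ h j := rfl

theorem aSeq_zero (h : ℝ) : aSeq a δ h 0 = startTime a δ + h := rfl

theorem hasSum_aSeq {p q : ℝ} (hq0 : 0 ≤ q) (hq1 : q < 1) (ha0 : 0 ≤ a) (hqa : q * a < 1) (h : ℝ) :
    HasSum (fun j : ℕ => p * q ^ j * aSeq a δ h j)
      (p * (startTime a δ + h) +
        q * (p * startTime a δ / (1 - q * a) + p * h / (1 + q) + 2 * p * δ)) := by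
  have s := (hasSum_bSeq (δ := δ) (p := p) hq0 hq1 ha0 hqa h).mul_left q
  have e : ∀ j : ℕ, p * q ^ (j + 1) * aSeq a δ h (j + 1) = q * (p * q ^ j * bSeq a δ h j) := by
    intro j
    rw [aSeq_succ]
    ring
  have s2 : HasSum (fun j : ℕ => p * q ^ (j + 1) * aSeq a δ h (j + 1))
      (q * (p * startTime a δ / (1 - q * a) + p * h / (1 + q) + 2 * p * δ)) := by
    simp only [e]
    exact s
  have s3 := HasSum.zero_add (f := fun j : ℕ => p * q ^ j * aSeq a δ h j) s2
  simp only [pow_zero, mul_one, aSeq_zero] at s3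
  exact s3

end cost

/-! ## The main bound -/

/-- The key inequality, hiders beyond the retraced part. -/
theorem key_B {p : ℝ} (hp0 : 0 < p) (hp1 : p < 1) {h : ℝ} (hh : 1 + p * (1 - p) / 4 ≤ h) :
    (p * startTime (2 / (2 - p)) (p * (1 - p) / 4) / (1 - (1 - p) * (2 / (2 - p)))
      + p * h / (1 + (1 - p)) + 2 * p * (p * (1 - p) / 4))
      ≤ h * (p / (2 - p) + 8 / p - p * (1 - p) * (2 - p) / 2) := by
  have h2p : 0 < 2 - p := by linarith
  have h1p : 0 < 1 - p := by linarith
  have e1 : 2 / (2 - p) - 1 = p / (2 - p) := by field_simp; ring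
  have e2 : 1 - (1 - p) * (2 / (2 - p)) = p / (2 - p) := by field_simp; ring
  have e3 : p * startTime (2 / (2 - p)) (p * (1 - p) / 4) / (1 - (1 - p) * (2 / (2 - p)))
      = (8 + 2 * (p * (1 - p) / 4) * (2 - p) ^ 2) / p := by
    unfold startTime
    rw [e1, e2]
    field_simp
    ring
  have e4 : 1 + (1 - p) = 2 - p := by ring
  rw [e3, e4]
  have e5 : h * (p / (2 - p) + 8 / p - p * (1 - p) * (2 - p) / 2)
      = p * h / (2 - p) + h * (8 / p - p * (1 - p) * (2 - p) / 2) := by ring
  rw [e5]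
  have e6 : (8 + 2 * (p * (1 - p) / 4) * (2 - p) ^ 2) / p + 2 * p * (p * (1 - p) / 4)
      ≤ (1 + p * (1 - p) / 4) * (8 / p - p * (1 - p) * (2 - p) / 2) := by
    have : (1 + p * (1 - p) / 4) * (8 / p - p * (1 - p) * (2 - p) / 2)
        - ((8 + 2 * (p * (1 - p) / 4) * (2 - p) ^ 2) / p + 2 * p * (p * (1 - p) / 4))
        = p * (1 - p) * (2 - p) * (1 / 2 - p * (1 - p) / 8) := by
      field_simp; ring
    have h3 : 0 ≤ p * (1 - p) * (2 - p) * (1 / 2 - p * (1 - p) / 8) := by
      have : 0 ≤ 1 / 2 - p * (1 - p) / 8 := by nlinarith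
      positivity
    linarith
  have e7 : 0 ≤ 8 / p - p * (1 - p) * (2 - p) / 2 := by
    have : 8 ≤ 8 / p := by rw [le_div_iff₀ hp0]; nlinarith
    have h4 : p * (1 - p) * (2 - p) ≤ 1 * 1 * 2 := by
      apply mul_le_mul (mul_le_mul hp1.le (by linarith) h1p.le (by norm_num)) (by linarith)
        h2p.le (by norm_num)
    linarith
  have e8 := mul_le_mul_of_nonneg_right hh e7
  linarith

/-- The key inequality, hiders in the retraced part. -/
theorem key_A {p : ℝ} (hp0 : 0 < p) (hp1 : p < 1) {h : ℝ} (hh : 1 ≤ h) :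
    (p * (startTime (2 / (2 - p)) (p * (1 - p) / 4) + h) +
      (1 - p) * (p * startTime (2 / (2 - p)) (p * (1 - p) / 4) / (1 - (1 - p) * (2 / (2 - p)))
      + p * h / (1 + (1 - p)) + 2 * p * (p * (1 - p) / 4)))
      ≤ h * (p / (2 - p) + 8 / p - p * (1 - p) * (2 - p) / 2) := by
  have h2p : 0 < 2 - p := by linarith
  have h1p : 0 < 1 - p := by linarith
  have e1 : 2 / (2 - p) - 1 = p / (2 - p) := by field_simp; ring
  have e2 : 1 - (1 - p) * (2 / (2 - p)) = p / (2 - p) := by field_simp; ring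
  have e3 : p * startTime (2 / (2 - p)) (p * (1 - p) / 4) / (1 - (1 - p) * (2 / (2 - p)))
      = (8 + 2 * (p * (1 - p) / 4) * (2 - p) ^ 2) / p := by
    unfold startTime
    rw [e1, e2]
    field_simp
    ring
  have e3' : p * startTime (2 / (2 - p)) (p * (1 - p) / 4)
      = (8 + 2 * (p * (1 - p) / 4) * (2 - p) ^ 2) / (2 - p) := by
    unfold startTime
    rw [e1]
    field_simp
    ring
  have e4 : 1 + (1 - p) = 2 - p := by ring
  rw [mul_add p, e3, e3', e4]
  have e5 : h * (p / (2 - p) + 8 / p - p * (1 - p) * (2 - p) / 2)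
      = p * h + (1 - p) * (p * h / (2 - p))
        + h * (8 / p - 2 * p * (1 - p) / (2 - p) - p * (1 - p) * (2 - p) / 2) := by
    field_simp; ring
  rw [e5]
  have e6 : (8 + 2 * (p * (1 - p) / 4) * (2 - p) ^ 2) / (2 - p)
      + (1 - p) * ((8 + 2 * (p * (1 - p) / 4) * (2 - p) ^ 2) / p + 2 * p * (p * (1 - p) / 4))
      ≤ 8 / p - 2 * p * (1 - p) / (2 - p) - p * (1 - p) * (2 - p) / 2 := by
    have e8 : (8 / p - 2 * p * (1 - p) / (2 - p) - p * (1 - p) * (2 - p) / 2)
        - ((8 + 2 * (p * (1 - p) / 4) * (2 - p) ^ 2) / (2 - p)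
          + (1 - p) * ((8 + 2 * (p * (1 - p) / 4) * (2 - p) ^ 2) / p
            + 2 * p * (p * (1 - p) / 4)))
        = (1 - p) * ((8 - 2 * p) / (2 - p) - (2 - p) * (2 - p + p ^ 2) / 2
            - p ^ 2 * (1 - p) / 2) := by
      field_simp; ring
    have h3 : 4 ≤ (8 - 2 * p) / (2 - p) := by
      rw [le_div_iff₀ h2p]; linarith
    have h4 : (2 - p) * (2 - p + p ^ 2) ≤ 2 * 2 := by
      apply mul_le_mul (by linarith) (by nlinarith) (by nlinarith) (by norm_num)
    have h5 : p ^ 2 * (1 - p) ≤ 1 * 1 := by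
      apply mul_le_mul (by nlinarith) (by linarith) h1p.le (by norm_num)
    have h6 : 0 ≤ (1 - p) * ((8 - 2 * p) / (2 - p) - (2 - p) * (2 - p + p ^ 2) / 2
            - p ^ 2 * (1 - p) / 2) := by
      apply mul_nonneg h1p.le
      linarith
    linarith
  have e7 : 0 ≤ 8 / p - 2 * p * (1 - p) / (2 - p) - p * (1 - p) * (2 - p) / 2 := by
    refine le_trans ?_ e6
    positivity
  have e8 := mul_le_mul_of_nonneg_right hh e7
  linarith

/-- **The geometric trajectory is not a minimax trajectory, for any `p ∈ (0,1)`.**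
For every detection probability `p ∈ (0,1)` there is an admitted trajectory `S` of the searcher
whose guaranteed cost `v(S)` is smaller than `p / (2 - p) + 8 / p`, the best guaranteed cost of
monotonic periodic trajectories, by at least `p (1 - p) (2 - p) / 2`. -/
theorem exists_better (p : ℝ) (hp0 : 0 < p) (hp1 : p < 1) :
    ∃ S : ℝ≥0 → ℝ, IsTrajectory S ∧
      guaranteedCost p S ≤
        ENNReal.ofReal (p / (2 - p) + 8 / p - p * (1 - p) * (2 - p) / 2) ∧
      guaranteedCost p S < ENNReal.ofReal (p / (2 - p) + 8 / p) := by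
  have h2p : 0 < 2 - p := by linarith
  have h1p : 0 < 1 - p := by linarith
  set a : ℝ := 2 / (2 - p) with ha_def
  set δ : ℝ := p * (1 - p) / 4 with hδ_def
  have ha : 1 < a := by rw [ha_def, lt_div_iff₀ h2p]; linarith
  have hapos : 0 < a := by linarith
  have hδ : 0 < δ := by positivity
  have hqa : (1 - p) * a < 1 := by
    rw [ha_def, ← mul_div_assoc, div_lt_one h2p]; linarith
  have hmain : guaranteedCost p (path a δ) ≤
      ENNReal.ofReal (p / (2 - p) + 8 / p - p * (1 - p) * (2 - p) / 2) := by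
    refine iSup₂_le fun H hH => ?_
    obtain ⟨i, h, h1, h2, rfl⟩ := exists_decomp ha hH
    have hai : 0 < a ^ i := by positivity
    have hfin := path_finite ha hδ (H := (-a) ^ i * h) hH
    have habs : |(-a) ^ i * h| = a ^ i * h := by
      rw [abs_mul, abs_neg_zpow ha, abs_of_nonneg (by linarith)]
    rw [habs]
    have hkey : expectedCaptureTime p (path a δ) ((-a) ^ i * h) ≤
        ENNReal.ofReal (a ^ i * (h * (p / (2 - p) + 8 / p - p * (1 - p) * (2 - p) / 2))) := by
      rcases le_total h (1 + δ) with h3 | h3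
      · have hs := (hasSum_aSeq (a := a) (δ := δ) (p := p) (q := 1 - p) h1p.le (by linarith)
          hapos.le hqa h).mul_left (a ^ i)
        have hb := expected_le hp0 hp1 (path a δ) ((-a) ^ i * h) hfin
          (fun j => a ^ i * aSeq a δ h j)
          (fun j k hjk => mul_lt_mul_of_pos_left (aSeq_strictMono ha hδ h1 h2 hjk) hai)
          (fun j => by
            apply mul_nonneg hai.le
            cases j with
            | zero => rw [aSeq_zero]; linarith [startTime_pos ha hδ]
            | succ j => exact (bSeq_lower ha hδ h1 h2 j).le)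
          (fun j => path_aSeq ha hδ i h1 h2 h3 j) _
          (by
            have e : ∀ j : ℕ, p * (1 - p) ^ j * (a ^ i * aSeq a δ h j)
                = a ^ i * (p * (1 - p) ^ j * aSeq a δ h j) := fun j => by ring
            simp only [e]
            exact hs)
        refine hb.trans (ENNReal.ofReal_le_ofReal ?_)
        exact mul_le_mul_of_nonneg_left (key_A hp0 hp1 h1) hai.le
      · have hs := (hasSum_bSeq (a := a) (δ := δ) (p := p) (q := 1 - p) h1p.le (by linarith)
          hapos.le hqa h).mul_left (a ^ i)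
        have hb := expected_le hp0 hp1 (path a δ) ((-a) ^ i * h) hfin
          (fun j => a ^ i * bSeq a δ h j)
          (fun j k hjk => mul_lt_mul_of_pos_left (bSeq_strictMono ha hδ h1 h2 hjk) hai)
          (fun j => mul_nonneg hai.le (bSeq_lower ha hδ h1 h2 j).le)
          (fun j => path_bSeq ha hδ i h1 h2 j) _
          (by
            have e : ∀ j : ℕ, p * (1 - p) ^ j * (a ^ i * bSeq a δ h j)
                = a ^ i * (p * (1 - p) ^ j * bSeq a δ h j) := fun j => by ring
            simp only [e]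
            exact hs)
        refine hb.trans (ENNReal.ofReal_le_ofReal ?_)
        exact mul_le_mul_of_nonneg_left (key_B hp0 hp1 h3) hai.le
    have hpos : 0 < a ^ i * h := by positivity
    refine ENNReal.div_le_of_le_mul ?_
    rw [← ENNReal.ofReal_mul' hpos.le]
    refine hkey.trans (ENNReal.ofReal_le_ofReal (le_of_eq (by ring)))
  refine ⟨path a δ, path_isTrajectory ha hδ, hmain, lt_of_le_of_lt hmain ?_⟩
  rw [ENNReal.ofReal_lt_ofReal_iff (by positivity)]
  have : 0 < p * (1 - p) * (2 - p) / 2 := by positivity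
  linarith

end Pool.Agent.Lib.MP_61cfb3_pr
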